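import Mathlib

/-!
# A set-splitting game: player A has a winning strategy exactly on the countable sets

In the game `G(E)` the player who chose `S_n` (player A for `n = 0`, where `S_0 = E`) splits it into
two disjoint parts and the other player chooses `S_{n+1}` among them.  Player A wins if the
intersection of the `S_n` is empty.  We prove in ZFC that A has no winning strategy if `E` is
uncountable.

Idea: suppose that A has a winning strategy.  Fix a set `E' ⊆ E` of cardinality `ℵ₁` and call the
subsets of `E` with countable trace on `E'` small.  For every point `x` the tree of the positions in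
which `x` survives is well founded.  So the relation `the position F' x comes after F x and
contains x, for all x of X outside a small set` between families `F, F'` of positions is well
founded for each set `X` which is not small.  The rank of the constant family at the current
position, on the current set, is the quantity which B decreases: the sets `Y` on which the rank is
larger form, with the small sets, a countably complete ideal; it is not prime, because `E'` has at
most the cardinality of the continuum.  So B can split the current set into two parts for which the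
rank is still minimal.  After the choice and the split of A the rank is smaller on one of the two
parts, and B chooses this part.
-/

set_option autoImplicit false

open Set Filter

universe u v

namespace Pool.Agent.Results.MP_053b7f_lc.NoWinningStrategy

/-- A finite history of the game on `E`: the list of the moves made so far, the last one first.  The
entry `(P, Q, c)` says that the current set was split into `P` and `Q` and that then the part `P`
(if `c = true`) or `Q` (if `c = false`) was chosen. -/
abbrev History (E : Type u) : Type u := List (Set E × Set E × Bool)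

/-- The current set `S_n` after a history of length `n`; `S_0` is the whole of `E`. -/
def cur {E : Type u} : History E → Set E
  | [] => Set.univ
  | (P, Q, c) :: _ => if c = true then P else Q

/-- `P` and `Q` are disjoint sets with union `S`. -/
def IsSplit {E : Type u} (S P Q : Set E) : Prop := P ∪ Q = S ∧ Disjoint P Q

/-- The first `n` moves of a play, as a history. -/
def hist {E : Type u} (m : ℕ → Set E × Set E × Bool) : ℕ → History E
  | 0 => []
  | n + 1 => m n :: hist m n

/-- A strategy of player A: for every finite history the split of the current set which A makes if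
it is A's turn to split, and, for every history and every split `(P, Q)` of the current set made by
B, the part chosen by A. -/
structure Strategy (E : Type u) where
  /-- the split made by A -/
  split : History E → Set E × Set E
  /-- the part chosen by A -/
  choose : History E → Set E × Set E → Bool
  /-- the splits of A are splits of the current set -/
  legal : ∀ h, IsSplit (cur h) (split h).1 (split h).2

/-- `m` is a play of the game (the `n`-th move splits `S_n` and chooses `S_{n+1}`) in which player A,
who makes the splits of `S_n` for even `n` and chooses `S_{n+1}` for odd `n`, follows the strategy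
`σ`. -/
structure Follows {E : Type u} (σ : Strategy E) (m : ℕ → Set E × Set E × Bool) : Prop where
  rules : ∀ n, IsSplit (cur (hist m n)) (m n).1 (m n).2.1
  splits : ∀ n, Even n → ((m n).1, (m n).2.1) = σ.split (hist m n)
  chooses : ∀ n, Odd n → (m n).2.2 = σ.choose (hist m n) ((m n).1, (m n).2.1)

/-- The strategy `σ` is a winning strategy of A: `⋂_{n ≥ 1} S_n` is empty in each play in which A
follows `σ`. -/
def Wins {E : Type u} (σ : Strategy E) : Prop :=
  ∀ m : ℕ → Set E × Set E × Bool, Follows σ m → ⋂ n ≥ 1, cur (hist m n) = ∅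

/-! ### The norm -/

section Norm

variable {E : Type u} {β : Type v} (R : E → β → β → Prop)

/-- `F` is below `G` almost everywhere. -/
def Lt (l : Filter E) (F G : E → β) : Prop := ∀ᶠ x in l, R x (F x) (G x)

/-- The norm of `F` is at least `α`. -/
def D (l : Filter E) (α : Ordinal.{max u v}) (F : E → β) : Prop :=
  ∀ γ, γ < α → ∃ G, Lt R l G F ∧ D l γ G
termination_by α

theorem D_iff (l : Filter E) (α : Ordinal.{max u v}) (F : E → β) :
    D R l α F ↔ ∀ γ, γ < α → ∃ G, Lt R l G F ∧ D R l γ G := by
  rw [D]

theorem D_mono {l l' : Filter E} (h : l' ≤ l) (α : Ordinal.{max u v}) :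
    ∀ F : E → β, D R l α F → D R l' α F := by
  induction α using WellFoundedLT.induction with
  | ind α ih =>
    intro F hF
    rw [D_iff] at hF ⊢
    intro γ hγ
    obtain ⟨G, h1, h2⟩ := hF γ hγ
    exact ⟨G, h h1, ih γ hγ G h2⟩

theorem D_congr {l : Filter E} {F F' : E → β} (h : ∀ᶠ x in l, F x = F' x) {α : Ordinal.{max u v}}
    (hF : D R l α F) : D R l α F' := by
  rw [D_iff] at hF ⊢
  intro γ hγ
  obtain ⟨G, h1, h2⟩ := hF γ hγ
  refine ⟨G, ?_, h2⟩
  filter_upwards [h, h1] with x hx hx1
  rwa [← hx]

/-- Gluing: the norm on a countable union is the minimum of the norms. -/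
theorem D_glue {ι : Type} [Countable ι] [Nonempty ι] {l : Filter E} [CountableInterFilter l]
    (α : Ordinal.{max u v}) : ∀ (F : E → β) (X : ι → Set E), (∀ᶠ x in l, ∃ i, x ∈ X i) →
    (∀ i, D R (l ⊓ 𝓟 (X i)) α F) → D R l α F := by
  classical
  induction α using WellFoundedLT.induction with
  | ind α ih =>
    intro F X hX hF
    rw [D_iff]
    intro γ hγ
    have h1 : ∀ i, ∃ G, Lt R (l ⊓ 𝓟 (X i)) G F ∧ D R (l ⊓ 𝓟 (X i)) γ G := fun i =>
      (D_iff R _ _ _).1 (hF i) γ hγ
    choose G hG1 hG2 using h1
    -- the index of a point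
    let k : E → ι := fun x => if h : ∃ i, x ∈ X i then h.choose else Classical.arbitrary ι
    have hk : ∀ x, (∃ i, x ∈ X i) → x ∈ X (k x) := by
      intro x hx
      simp only [k, dif_pos hx]
      exact hx.choose_spec
    refine ⟨fun x => G (k x) x, ?_, ?_⟩
    · have h2 : ∀ᶠ x in l, ∀ i, x ∈ X i → R x (G i x) (F x) := by
        rw [eventually_countable_forall]
        intro i
        exact eventually_inf_principal.1 (hG1 i)
      filter_upwards [h2, hX] with x hx hx'
      exact hx _ (hk x hx')
    · refine ih γ hγ _ (fun i => {x | x ∈ X i ∧ k x = i}) ?_ ?_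
      · filter_upwards [hX] with x hx
        exact ⟨k x, hk x hx, rfl⟩
      · intro i
        refine D_congr R (F := G i) ?_ (D_mono R ?_ γ _ (hG2 i))
        · rw [eventually_inf_principal]
          refine Eventually.of_forall fun x hx => ?_
          rw [hx.2]
        · exact inf_le_inf_left _ (principal_mono.2 fun x hx => hx.1)

theorem lt_wf {l : Filter E} [NeBot l] [CountableInterFilter l] (hR : ∀ x, WellFounded (R x)) :
    WellFounded (Lt R l) := by
  rw [wellFounded_iff_isEmpty_descending_chain]
  refine ⟨fun ⟨f, hf⟩ => ?_⟩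
  have h1 : ∀ᶠ x in l, ∀ n, R x (f (n + 1) x) (f n x) := eventually_countable_forall.2 hf
  obtain ⟨x, hx⟩ := h1.exists
  exact (wellFounded_iff_isEmpty_descending_chain.1 (hR x)).false ⟨fun n => f n x, hx⟩

/-- The norm exists. -/
theorem exists_not_D {l : Filter E} [NeBot l] [CountableInterFilter l]
    (hR : ∀ x, WellFounded (R x)) (F : E → β) : ∃ α : Ordinal.{max u v}, ¬ D R l α F := by
  have wf := lt_wf R (l := l) hR
  have : IsWellFounded (E → β) (Lt R l) := ⟨wf⟩
  have key : ∀ (F : E → β) (α : Ordinal.{max u v}), D R l α F →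
      α ≤ IsWellFounded.rank (Lt R l) F := by
    intro F
    induction F using wf.induction with
    | _ F ih =>
      intro α hα
      refine le_of_forall_lt fun γ hγ => ?_
      obtain ⟨G, h1, h2⟩ := (D_iff R _ _ _).1 hα γ hγ
      exact (ih G h1 γ h2).trans_lt (IsWellFounded.rank_lt_of_rel h1)
  refine ⟨Order.succ (IsWellFounded.rank (Lt R l) F), fun h => ?_⟩
  exact absurd (key F _ h) (not_le_of_gt (Order.lt_succ _))

/-- Splitting: if the fibres of some map to the Cantor space are small then each set is the union
of two disjoint sets for which the norm has not become larger. -/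
theorem exists_split {l : Filter E} [CountableInterFilter l] (e : E → ℕ → Bool)
    (he : ∀ b, ∀ᶠ x in l, e x ≠ b) (F : E → β) (α : Ordinal.{max u v}) (h : ¬ D R l α F) :
    ∃ T : Set E, ¬ D R (l ⊓ 𝓟 T) α F ∧ ¬ D R (l ⊓ 𝓟 Tᶜ) α F := by
  by_contra hcon
  push Not at hcon
  have h1 : ∀ n, ∃ b : Bool, D R (l ⊓ 𝓟 {x | e x n ≠ b}) α F := by
    intro n
    by_cases h2 : D R (l ⊓ 𝓟 {x | e x n = true}) α F
    · refine ⟨false, ?_⟩
      have : {x | e x n ≠ false} = {x | e x n = true} := by ext x; simp
      rwa [this]
    · refine ⟨true, ?_⟩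
      exact hcon _ h2
  choose b hb using h1
  refine h (D_glue R α F (fun n : ℕ => {x | e x n ≠ b n}) ?_ hb)
  filter_upwards [he b] with x hx
  by_contra h3
  push Not at h3
  apply hx
  funext n
  have := h3 n
  simpa using this

end Norm

/-! ### Small sets -/

/-- The sets whose complements have countable trace on `A`. -/
def big {E : Type u} (A : Set E) : Filter E where
  sets := {s | (A \ s).Countable}
  univ_sets := by simp
  sets_of_superset := fun {s t} hs hst => hs.mono (sdiff_subset_sdiff_right hst)
  inter_sets := fun {s t} hs ht => by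
    show (A \ (s ∩ t)).Countable
    rw [sdiff_inter]
    exact hs.union ht

theorem mem_big {E : Type u} {A s : Set E} : s ∈ big A ↔ (A \ s).Countable := Iff.rfl

instance {E : Type u} (A : Set E) : CountableInterFilter (big A) where
  countable_sInter_mem := fun S hS h => by
    have h1 : A \ ⋂₀ S = ⋃ s ∈ S, A \ s := by
      ext x
      simp only [Set.mem_sdiff, Set.mem_sInter, mem_iUnion]
      constructor
      · rintro ⟨hx, h2⟩
        push Not at h2
        obtain ⟨s, hs, hxs⟩ := h2
        exact ⟨s, hs, hx, hxs⟩
      · rintro ⟨s, hs, hx, hxs⟩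
        exact ⟨hx, fun h2 => hxs (h2 s hs)⟩
    rw [mem_big, h1]
    exact hS.biUnion h

/-! ### The positions -/

section Positions

variable {E : Type u} (σ : Strategy E)

/-- The history after B has split the current set into `P` and `Q`, A has chosen a part and has
split it, and B has chosen the part `d`. -/
def next (h : History E) (P Q : Set E) (d : Bool) : History E :=
  ((σ.split ((P, Q, σ.choose h (P, Q)) :: h)).1, (σ.split ((P, Q, σ.choose h (P, Q)) :: h)).2, d) ::
    (P, Q, σ.choose h (P, Q)) :: h

/-- The first position. -/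
def start (d : Bool) : History E := [((σ.split []).1, (σ.split []).2, d)]

/-- `h'` is a possible position after `h`. -/
def Step (h h' : History E) : Prop := ∃ P Q d, IsSplit (cur h) P Q ∧ h' = next σ h P Q d

/-- `h'` is a possible position after `h` in which `x` survives. -/
def Rel (x : E) (h' h : History E) : Prop := Step σ h h' ∧ x ∈ cur h'

theorem cur_cons_subset {E : Type u} {h : History E} {P Q : Set E} (hPQ : IsSplit (cur h) P Q)
    (c : Bool) : cur ((P, Q, c) :: h) ⊆ cur h := by
  rw [← hPQ.1]
  cases c
  · exact subset_union_right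
  · exact subset_union_left

theorem cur_next_subset (h : History E) (P Q : Set E) (d : Bool) :
    cur (next σ h P Q d) ⊆ cur ((P, Q, σ.choose h (P, Q)) :: h) :=
  cur_cons_subset (σ.legal _) d

theorem Step.subset {h h' : History E} (hs : Step σ h h') : cur h' ⊆ cur h := by
  obtain ⟨P, Q, d, hPQ, rfl⟩ := hs
  exact (cur_next_subset σ h P Q d).trans (cur_cons_subset hPQ _)

/-- The points which survive all the way give a lost play. -/
theorem acc_start (hσ : Wins σ) (x : E) (d : Bool) : Acc (Rel σ x) (start σ d) := by
  by_contra hacc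
  obtain ⟨c, hc0, hc⟩ := not_acc_iff_exists_descending_chain.1 hacc
  have h1 : ∀ n, ∃ P Q d, IsSplit (cur (c n)) P Q ∧ c (n + 1) = next σ (c n) P Q d := fun n =>
    (hc n).1
  choose P Q b hPQ hb using h1
  -- the play
  let m : ℕ → Set E × Set E × Bool := fun n =>
    if n = 0 then ((σ.split []).1, (σ.split []).2, d) else
    if Even n then
      ((σ.split ((P ((n - 1) / 2), Q ((n - 1) / 2), σ.choose (c ((n - 1) / 2))
        (P ((n - 1) / 2), Q ((n - 1) / 2))) :: c ((n - 1) / 2))).1,
       (σ.split ((P ((n - 1) / 2), Q ((n - 1) / 2), σ.choose (c ((n - 1) / 2))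
        (P ((n - 1) / 2), Q ((n - 1) / 2))) :: c ((n - 1) / 2))).2, b ((n - 1) / 2))
    else (P ((n - 1) / 2), Q ((n - 1) / 2), σ.choose (c ((n - 1) / 2))
        (P ((n - 1) / 2), Q ((n - 1) / 2)))
  have m0 : m 0 = ((σ.split []).1, (σ.split []).2, d) := by simp [m]
  have mo : ∀ k, m (2 * k + 1) = (P k, Q k, σ.choose (c k) (P k, Q k)) := by
    intro k
    have e1 : (2 * k + 1 - 1) / 2 = k := by omega
    have e2 : ¬ Even (2 * k + 1) := by rw [Nat.not_even_iff_odd]; exact ⟨k, rfl⟩
    simp only [m, e1, if_neg e2]
    rw [if_neg (by omega)]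
  have me : ∀ k, m (2 * k + 2) =
      ((σ.split ((P k, Q k, σ.choose (c k) (P k, Q k)) :: c k)).1,
        (σ.split ((P k, Q k, σ.choose (c k) (P k, Q k)) :: c k)).2, b k) := by
    intro k
    have e1 : (2 * k + 2 - 1) / 2 = k := by omega
    have e2 : Even (2 * k + 2) := ⟨k + 1, by ring⟩
    simp only [m, e1, if_pos e2]
    rw [if_neg (by omega)]
  have ho : ∀ k, hist m (2 * k + 1) = c k := by
    intro k
    induction k with
    | zero =>
      show m 0 :: [] = c 0
      rw [m0, hc0]
      rfl
    | succ k ih =>
      show m (2 * k + 2) :: m (2 * k + 1) :: hist m (2 * k + 1) = c (k + 1)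
      rw [ih, me, mo, hb k]
      rfl
  have he : ∀ k, hist m (2 * k + 2) = (P k, Q k, σ.choose (c k) (P k, Q k)) :: c k := by
    intro k
    show m (2 * k + 1) :: hist m (2 * k + 1) = _
    rw [ho, mo]
  have hF : Follows σ m := by
    refine ⟨fun n => ?_, fun n hn => ?_, fun n hn => ?_⟩
    · rcases Nat.even_or_odd' n with ⟨k, rfl | rfl⟩
      · rcases k with _ | k
        · show IsSplit (cur []) (m 0).1 (m 0).2.1
          rw [m0]
          exact σ.legal []
        · have e : 2 * (k + 1) = 2 * k + 2 := by ring
          rw [e, he, me]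
          exact σ.legal _
      · rw [ho, mo]
        exact hPQ k
    · obtain ⟨k, rfl⟩ := hn.exists_two_nsmul
      rcases k with _ | k
      · show ((m 0).1, (m 0).2.1) = σ.split []
        rw [m0]
      · have e : 2 • (k + 1) = 2 * k + 2 := by simp; ring
        rw [e, he, me]
    · obtain ⟨k, rfl⟩ := hn
      rw [ho, mo]
  have hdec : ∀ n, cur (hist m (n + 1)) ⊆ cur (hist m n) := fun n =>
    cur_cons_subset (hF.rules n) _
  have hanti : Antitone fun n => cur (hist m n) := antitone_nat_of_succ_le hdec
  have hx : x ∈ ⋂ n ≥ 1, cur (hist m n) := by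
    simp only [mem_iInter]
    intro n _
    have h2 : x ∈ cur (hist m (2 * (n + 1) + 1)) := by
      rw [ho]
      exact (hc n).2
    exact hanti (by omega : n ≤ 2 * (n + 1) + 1) h2
  rw [hσ m hF] at hx
  exact hx

/-- The positions which can occur. -/
abbrev Pos : Type u := {h : History E // ∃ d, Relation.ReflTransGen (Step σ) (start σ d) h}

/-- The relation on the positions which can occur. -/
def PRel (x : E) (p' p : Pos σ) : Prop := Rel σ x p'.1 p.1

theorem acc_pos (hσ : Wins σ) (x : E) (h : History E) (d : Bool)
    (hh : Relation.ReflTransGen (Step σ) (start σ d) h) : Acc (Rel σ x) h := by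
  by_cases hx : x ∈ cur h
  · induction hh with
    | refl => exact acc_start σ hσ x d
    | tail _ hs ih => exact (ih (hs.subset σ hx)).inv ⟨hs, hx⟩
  · exact ⟨_, fun h' hr => absurd (hr.1.subset σ hr.2) hx⟩

theorem prel_wf (hσ : Wins σ) (x : E) : WellFounded (PRel σ x) :=
  ⟨fun p => InvImage.accessible Subtype.val (by
    obtain ⟨d, hd⟩ := p.2
    exact acc_pos σ hσ x p.1 d hd)⟩

/-- A position after `p`. -/
def Pos.next (p : Pos σ) (P Q : Set E) (hPQ : IsSplit (cur p.1) P Q) (d : Bool) : Pos σ :=
  ⟨NoWinningStrategy.next σ p.1 P Q d, by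
    obtain ⟨d', hd'⟩ := p.2
    exact ⟨d', hd'.tail ⟨P, Q, d, hPQ, rfl⟩⟩⟩

/-- Infinite descent: the norm of the constant family on the current set is larger than each
ordinal. -/
theorem descent {l : Filter E} [CountableInterFilter l] (e : E → ℕ → Bool)
    (he : ∀ b, ∀ᶠ x in l, e x ≠ b) (α : Ordinal.{u}) :
    ∀ p : Pos σ, D (PRel σ) (l ⊓ 𝓟 (cur p.1)) α (fun _ => p) := by
  classical
  induction α using WellFoundedLT.induction with
  | ind α ih =>
    intro p
    by_contra hp
    obtain ⟨T, hT1, hT2⟩ := exists_split (PRel σ) e
      (fun b => (he b).filter_mono inf_le_left) (fun _ => p) α hp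
    -- the split of B
    set P := cur p.1 ∩ T with hP
    set Q := cur p.1 ∩ Tᶜ with hQ
    have hPQ : IsSplit (cur p.1) P Q := by
      refine ⟨by rw [hP, hQ, ← inter_union_distrib_left, union_compl_self, inter_univ], ?_⟩
      exact (disjoint_compl_right (a := T)).mono inter_subset_right inter_subset_right
    have hPn : ¬ D (PRel σ) (l ⊓ 𝓟 P) α (fun _ => p) := by
      rwa [hP, ← inf_principal, ← inf_assoc]
    have hQn : ¬ D (PRel σ) (l ⊓ 𝓟 Q) α (fun _ => p) := by
      rwa [hQ, ← inf_principal, ← inf_assoc]
    -- the choice and the split of A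
    set h₁ : History E := (P, Q, σ.choose p.1 (P, Q)) :: p.1 with hh₁
    have hn : ¬ D (PRel σ) (l ⊓ 𝓟 (cur h₁)) α (fun _ => p) := by
      rw [hh₁]
      cases σ.choose p.1 (P, Q)
      · exact hQn
      · exact hPn
    rw [D_iff] at hn
    push Not at hn
    obtain ⟨γ, hγ, hn⟩ := hn
    have hleg := σ.legal h₁
    -- the new position, for each point
    let F' : E → Pos σ := fun x => p.next σ P Q hPQ (decide (x ∈ (σ.split h₁).1))
    have hcur : ∀ d, cur (p.next σ P Q hPQ d).1 =
        if d = true then (σ.split h₁).1 else (σ.split h₁).2 := fun d => rfl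
    have hlt : Lt (PRel σ) (l ⊓ 𝓟 (cur h₁)) F' (fun _ => p) := by
      unfold Lt
      rw [eventually_inf_principal]
      refine Eventually.of_forall fun x hx => ⟨⟨P, Q, _, hPQ, rfl⟩, ?_⟩
      rw [← hleg.1] at hx
      rw [hcur]
      by_cases hx1 : x ∈ (σ.split h₁).1
      · simp [hx1]
      · simpa [hx1] using hx
    refine hn F' hlt (D_glue (ι := Bool) (PRel σ) γ F'
      (fun d => cur (p.next σ P Q hPQ d).1) ?_ fun d => ?_)
    · rw [eventually_inf_principal]
      refine Eventually.of_forall fun x hx => ?_
      rw [← hleg.1] at hx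
      rcases hx with hx | hx
      · exact ⟨true, hx⟩
      · exact ⟨false, hx⟩
    · refine D_congr (PRel σ) (F := fun _ => p.next σ P Q hPQ d) ?_
        (D_mono (PRel σ) (inf_le_inf_right _ inf_le_left) γ _ (ih γ hγ _))
      rw [eventually_inf_principal]
      refine Eventually.of_forall fun x hx => ?_
      rw [hcur] at hx
      simp only [F']
      congr 1
      cases d
      · have h2 : x ∈ (σ.split h₁).2 := by simpa using hx
        have h3 : x ∉ (σ.split h₁).1 := fun h4 => hleg.2.le_bot ⟨h4, h2⟩
        simp [h3]
      · have h2 : x ∈ (σ.split h₁).1 := by simpa using hx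
        simp [h2]

end Positions

theorem not_wins {E : Type u} (hE : ¬ Countable E) (σ : Strategy E) : ¬ Wins σ := by
  classical
  intro hσ
  -- a set of cardinality `ℵ₁`
  have h1 : Cardinal.aleph 1 ≤ Cardinal.mk E := by
    rw [Cardinal.aleph_one_le_iff, ← not_le, Cardinal.mk_le_aleph0_iff]
    exact hE
  obtain ⟨A, hA⟩ := Cardinal.le_mk_iff_exists_set.1 h1
  have hAunc : ¬ A.Countable := by
    intro hc
    have h2 := Cardinal.mk_le_aleph0_iff.2 hc.to_subtype
    rw [hA] at h2
    exact absurd h2 (not_le_of_gt Cardinal.aleph0_lt_aleph_one)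
  -- an injective map to the Cantor space
  have h2 : Nonempty (A ↪ (ℕ → Bool)) := by
    rw [← Cardinal.lift_mk_le', hA]
    have h3 : Cardinal.mk (ℕ → Bool) = Cardinal.continuum := by simp
    rw [h3, Cardinal.lift_continuum, Cardinal.lift_aleph]
    simpa using Cardinal.aleph_one_le_continuum
  obtain ⟨i⟩ := h2
  let e : E → ℕ → Bool := fun x => if hx : x ∈ A then i ⟨x, hx⟩ else fun _ => true
  have he : ∀ b, ∀ᶠ x in big A, e x ≠ b := by
    intro b
    show (A \ {x | e x ≠ b}).Countable
    apply Set.Subsingleton.countable
    rintro x ⟨hx, hx'⟩ y ⟨hy, hy'⟩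
    simp only [Set.mem_ofPred_eq, not_not] at hx' hy'
    have h4 : i ⟨x, hx⟩ = i ⟨y, hy⟩ := by
      have e1 : e x = i ⟨x, hx⟩ := dif_pos hx
      have e2 : e y = i ⟨y, hy⟩ := dif_pos hy
      rw [← e1, ← e2, hx', hy']
    exact congrArg Subtype.val (i.injective h4)
  -- the first position
  have hst : ∃ d, ¬ (A ∩ cur (start σ d)).Countable := by
    by_contra hcon
    push Not at hcon
    apply hAunc
    have hleg := σ.legal []
    have h5 : A ⊆ (A ∩ cur (start σ true)) ∪ (A ∩ cur (start σ false)) := by
      intro x hx
      have h6 : x ∈ cur ([] : History E) := mem_univ x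
      rw [← hleg.1] at h6
      rcases h6 with h6 | h6
      · exact Or.inl ⟨hx, h6⟩
      · exact Or.inr ⟨hx, h6⟩
    exact ((hcon true).union (hcon false)).mono h5
  obtain ⟨d, hd⟩ := hst
  let p : Pos σ := ⟨start σ d, d, Relation.ReflTransGen.refl⟩
  have hne : NeBot (big A ⊓ 𝓟 (cur p.1)) := by
    rw [inf_principal_neBot_iff]
    intro U hU
    by_contra hcon
    rw [Set.not_nonempty_iff_eq_empty] at hcon
    have h5 : A ∩ cur (start σ d) ⊆ A \ U := by
      intro x hx
      refine ⟨hx.1, fun hxU => ?_⟩
      have h6 : x ∈ U ∩ cur p.1 := ⟨hxU, hx.2⟩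
      rw [hcon] at h6
      exact h6
    exact hd ((mem_big.1 hU).mono h5)
  obtain ⟨α, hα⟩ := exists_not_D (l := big A ⊓ 𝓟 (cur p.1)) (PRel σ) (prel_wf σ hσ) fun _ => p
  exact hα (descent σ e he α p)

theorem wins_of_countable {E : Type u} (hE : Countable E) : ∃ σ : Strategy E, Wins σ := by
  classical
  rcases isEmpty_or_nonempty E with hemp | hne
  · refine ⟨⟨fun h => (cur h, ∅), fun _ _ => true, fun h => ⟨union_empty _, disjoint_bot_right⟩⟩,
      fun m _ => Set.eq_empty_of_isEmpty _⟩
  · obtain ⟨f, hf⟩ := exists_surjective_nat E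
    refine ⟨⟨fun h => (cur h, ∅), fun h PQ => decide (f (h.length / 2) ∉ PQ.1),
      fun h => ⟨union_empty _, disjoint_bot_right⟩⟩, fun m hm => ?_⟩
    have hlen : ∀ n, (hist m n).length = n := by
      intro n
      induction n with
      | zero => rfl
      | succ n ih => simp [hist, ih]
    rw [Set.eq_empty_iff_forall_notMem]
    intro x hx
    obtain ⟨k, rfl⟩ := hf x
    simp only [mem_iInter] at hx
    have h1 := hx (2 * k + 2) (by omega)
    have h2 := hm.chooses (2 * k + 1) ⟨k, rfl⟩
    have h3 := hm.rules (2 * k + 1)
    simp only [hlen] at h2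
    have e1 : (2 * k + 1) / 2 = k := by omega
    rw [e1] at h2
    have h4 : f k ∈ cur ((m (2 * k + 1)) :: hist m (2 * k + 1)) := h1
    by_cases h5 : f k ∈ (m (2 * k + 1)).1
    · have h6 : (m (2 * k + 1)).2.2 = false := by rw [h2]; simp [h5]
      have h7 : f k ∈ (m (2 * k + 1)).2.1 := by
        have : cur ((m (2 * k + 1)) :: hist m (2 * k + 1)) =
            if (m (2 * k + 1)).2.2 = true then (m (2 * k + 1)).1 else (m (2 * k + 1)).2.1 := rfl
        rw [this, h6] at h4
        simpa using h4
      exact h3.2.le_bot ⟨h5, h7⟩
    · have h6 : (m (2 * k + 1)).2.2 = true := by rw [h2]; simp [h5]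
      have : cur ((m (2 * k + 1)) :: hist m (2 * k + 1)) =
            if (m (2 * k + 1)).2.2 = true then (m (2 * k + 1)).1 else (m (2 * k + 1)).2.1 := rfl
      rw [this, h6] at h4
      exact h5 (by simpa using h4)

/-- For every set `E`: player A has a winning strategy in the game `G(E)` if and only if `E` is
countable. -/
theorem result (E : Type u) : (∃ σ : Strategy E, Wins σ) ↔ Countable E :=
  ⟨fun ⟨σ, hσ⟩ => by_contra fun hE => not_wins hE σ hσ, wins_of_countable⟩

end Pool.Agent.Results.MP_053b7f_lc.NoWinningStrategy
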